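import Pool.Agent.helper81.BS.SpecG

set_option autoImplicit false
set_option linter.dupNamespace false
set_option linter.unusedVariables false
set_option linter.unusedSectionVars false

namespace Pool.Agent.helper81.BS

open Pool.Agent.helper81.PL

theorem M2 : M2_stmt := by
  intro n E A C
  unfold dd dl
  simp only [Finset.card_filter, Finset.mul_sum]
  rw [← Finset.sum_add_distrib, ← Finset.sum_add_distrib, ← Finset.sum_add_distrib]
  apply Finset.sum_congr rfl
  intro e _
  unfold fmem
  by_cases h1 : e / n ∈ A <;> by_cases h2 : e / n ∈ C <;> by_cases h3 : e % n ∈ A <;>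
    by_cases h4 : e % n ∈ C <;> simp [h1, h2, h3, h4]

end Pool.Agent.helper81.BS
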