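import Pool.Agent.helper81.BS.SpecG

/-! Module M3b of project bs (MP_b34eaa_lc): properties of components. -/

set_option autoImplicit false
set_option linter.dupNamespace false
set_option linter.unusedVariables false
set_option linter.unusedSectionVars false

namespace Pool.Agent.helper81.BS

open Pool.Agent.helper81.PL

theorem M3b_mem_dl (n : ℕ) (E M : Finset ℕ) (e : ℕ) :
    e ∈ dl n E M ↔ e ∈ E ∧ ((e / n ∈ M ∧ e % n ∉ M) ∨ (e / n ∉ M ∧ e % n ∈ M)) := by
  unfold dl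
  rw [Finset.mem_filter]
  unfold fmem
  by_cases h1 : e / n ∈ M <;> by_cases h2 : e % n ∈ M <;> simp [h1, h2]

theorem M3b_adj (n : ℕ) (E : Finset ℕ) (e : ℕ) (h : e ∈ E) :
    adjb n E (e / n) (e % n) = true ∧ adjb n E (e % n) (e / n) = true := by
  have h1 : e / n * n + e % n = e := Nat.div_add_mod' e n
  unfold adjb fmem
  rw [h1]
  simp [h]

theorem M3b : M3b_stmt := by
  intro n E X v K hWF hX hK
  obtain ⟨hKX, hKc, hKn⟩ := hK
  have hn : ∀ e ∈ E, ¬ (e / n ∈ K ∧ e % n ∈ X \ K) ∧ ¬ (e % n ∈ K ∧ e / n ∈ X \ K) := by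
    intro e he
    obtain ⟨a1, a2⟩ := M3b_adj n E e he
    constructor
    · rintro ⟨h1, h2⟩
      rw [hKn _ h1 _ h2] at a1
      exact Bool.noConfusion a1
    · rintro ⟨h1, h2⟩
      rw [hKn _ h1 _ h2] at a2
      exact Bool.noConfusion a2
  have hsub : dl n E K ⊆ dl n E X := by
    intro e he
    rw [M3b_mem_dl] at he ⊢
    obtain ⟨h1, h2⟩ := he
    obtain ⟨n1, n2⟩ := hn e h1
    simp only [Finset.mem_sdiff] at n1 n2
    refine ⟨h1, ?_⟩
    rcases h2 with ⟨h2, h3⟩ | ⟨h2, h3⟩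
    · left
      exact ⟨hKX h2, fun h => n1 ⟨h2, h, h3⟩⟩
    · right
      exact ⟨fun h => n2 ⟨h3, h, h2⟩, hKX h3⟩
  refine ⟨hsub, ?_, ?_⟩
  · have hu : dl n E X = dl n E K ∪ dl n E (X \ K) := by
      ext e
      rw [Finset.mem_union]
      constructor
      · intro he
        rw [M3b_mem_dl] at he
        rw [M3b_mem_dl, M3b_mem_dl]
        simp only [Finset.mem_sdiff]
        obtain ⟨h1, h2⟩ := he
        rcases h2 with ⟨h2, h3⟩ | ⟨h2, h3⟩
        · by_cases h4 : e / n ∈ K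
          · left
            exact ⟨h1, Or.inl ⟨h4, fun h => h3 (hKX h)⟩⟩
          · right
            exact ⟨h1, Or.inl ⟨⟨h2, h4⟩, fun h => h3 h.1⟩⟩
        · by_cases h4 : e % n ∈ K
          · left
            exact ⟨h1, Or.inr ⟨fun h => h2 (hKX h), h4⟩⟩
          · right
            exact ⟨h1, Or.inr ⟨fun h => h2 h.1, ⟨h3, h4⟩⟩⟩
      · rintro (he | he)
        · exact hsub he
        · rw [M3b_mem_dl] at he ⊢
          obtain ⟨h1, h2⟩ := he
          obtain ⟨n1, n2⟩ := hn e h1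
          simp only [Finset.mem_sdiff] at n1 n2 h2
          refine ⟨h1, ?_⟩
          rcases h2 with ⟨h2, h3⟩ | ⟨h2, h3⟩
          · left
            refine ⟨h2.1, fun h => h3 ⟨h, fun h5 => n2 ⟨h5, h2⟩⟩⟩
          · right
            refine ⟨fun h => h2 ⟨h, fun h5 => n1 ⟨h5, h3⟩⟩, h3.1⟩
    have hd : Disjoint (dl n E K) (dl n E (X \ K)) := by
      rw [Finset.disjoint_left]
      intro e he he2
      rw [M3b_mem_dl] at he he2
      obtain ⟨h1, h2⟩ := he
      obtain ⟨_, h3⟩ := he2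
      obtain ⟨n1, n2⟩ := hn e h1
      simp only [Finset.mem_sdiff] at n1 n2 h3
      rcases h2 with ⟨h2, h4⟩ | ⟨h2, h4⟩ <;> rcases h3 with ⟨h5, h6⟩ | ⟨h5, h6⟩
      · exact h5.2 h2
      · exact n1 ⟨h2, h6⟩
      · exact n2 ⟨h4, h5⟩
      · exact h6.2 h4
    unfold dd
    rw [hu, Finset.card_union_of_disjoint hd]
  · intro Y hY hYc
    obtain ⟨hv, hc⟩ := hYc
    by_contra hne
    have hZ : Y ∩ K ≠ Y := by
      intro h
      apply hne
      rw [← h]
      exact Finset.inter_subset_right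
    obtain ⟨a, ha, b, hb, hab⟩ := hc (Y ∩ K) Finset.inter_subset_left
      (Finset.mem_inter.2 ⟨hv, hKc.1⟩) hZ
    rw [Finset.mem_inter] at ha
    rw [Finset.mem_sdiff, Finset.mem_inter] at hb
    rw [hKn a ha.2 b (Finset.mem_sdiff.2 ⟨hY hb.1, fun h => hb.2 ⟨hb.1, h⟩⟩)] at hab
    exact Bool.noConfusion hab

end Pool.Agent.helper81.BS
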