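import Pool.Agent.helper81.BS.SpecG

set_option autoImplicit false
set_option linter.dupNamespace false
set_option linter.unusedVariables false
set_option linter.unusedSectionVars false

namespace Pool.Agent.helper81.BS

open Pool.Agent.helper81.PL

/-- an edge leaving `X` inside a connected set not contained in `X` -/
theorem M4_step (n : ℕ) (E : Finset ℕ) (v : ℕ) (M X : Finset ℕ) (hc : Conn n E v M) (hv : v ∈ X)
    (h : ¬ M ⊆ X) : ∃ a ∈ X, ∃ b ∈ M, b ∉ X ∧ adjb n E a b = true := by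
  obtain ⟨a, ha, b, hb, hab⟩ := hc.2 (X ∩ M) Finset.inter_subset_right
    (Finset.mem_inter.2 ⟨hv, hc.1⟩) (fun h2 => h (by rw [← h2]; exact Finset.inter_subset_left))
  rw [Finset.mem_inter] at ha
  rw [Finset.mem_sdiff, Finset.mem_inter] at hb
  exact ⟨a, ha.1, b, hb.1, fun h2 => hb.2 ⟨h2, hb.1⟩, hab⟩

theorem M4 : M4_stmt := by
  intro n E Q v M hM
  constructor
  · intro M' hM'
    refine ⟨Finset.union_subset hM.1 hM'.1, ?_, ?_, ?_⟩
    · rw [Finset.disjoint_union_left]
      exact ⟨hM.2.1, hM'.2.1⟩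
    · exact Finset.mem_union_left _ hM.2.2.1
    · intro X hX hv hne
      by_cases h : M ⊆ X
      · have h' : ¬ M' ⊆ X := by
          intro h2
          exact hne (Finset.Subset.antisymm hX (Finset.union_subset h h2))
        obtain ⟨a, ha, b, hb, hbX, hab⟩ := M4_step n E v M' X hM'.2.2 hv h'
        exact ⟨a, ha, b, Finset.mem_sdiff.2 ⟨Finset.mem_union_right _ hb, hbX⟩, hab⟩
      · obtain ⟨a, ha, b, hb, hbX, hab⟩ := M4_step n E v M X hM.2.2 hv h
        exact ⟨a, ha, b, Finset.mem_sdiff.2 ⟨Finset.mem_union_left _ hb, hbX⟩, hab⟩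
  · intro a ha b hb hbQ hab
    refine ⟨?_, ?_, ?_, ?_⟩
    · rw [Finset.insert_subset_iff]
      exact ⟨Finset.mem_range.2 hb, hM.1⟩
    · rw [Finset.disjoint_insert_left]
      exact ⟨hbQ, hM.2.1⟩
    · exact Finset.mem_insert_of_mem hM.2.2.1
    · intro X hX hv hne
      by_cases h : M ⊆ X
      · refine ⟨a, h ha, b, Finset.mem_sdiff.2 ⟨Finset.mem_insert_self _ _, ?_⟩, hab⟩
        intro h2
        apply hne
        apply Finset.Subset.antisymm hX
        rw [Finset.insert_subset_iff]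
        exact ⟨h2, h⟩
      · obtain ⟨a', ha', b', hb', hbX, hab'⟩ := M4_step n E v M X hM.2.2 hv h
        exact ⟨a', ha', b', Finset.mem_sdiff.2 ⟨Finset.mem_insert_of_mem hb', hbX⟩, hab'⟩

end Pool.Agent.helper81.BS
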