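import Pool.Agent.helper81.BS.SpecG

set_option autoImplicit false
set_option linter.dupNamespace false
set_option linter.unusedVariables false
set_option linter.unusedSectionVars false

namespace Pool.Agent.helper81.BS

open Pool.Agent.helper81.PL

theorem M6 (hM3a : M3a_stmt) (hM3b : M3b_stmt) : M6_stmt := by
  intro n E Q v P M hWF hP hM X hX hPX hd
  obtain ⟨K, hK⟩ := hM3a n E X v (hPX hP.2.2.1)
  obtain ⟨_, hKd, hKmax⟩ := hM3b n E X v K hWF hX hK
  have hPK : P ⊆ K := hKmax P hPX hP.2.2
  have hKf : Feas n E Q v K :=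
    ⟨hK.1.trans hX, Finset.disjoint_of_subset_left hK.1 hd, hK.2.1⟩
  have h1 := (hM.2.2 K hKf hPK).1
  omega

end Pool.Agent.helper81.BS
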