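import Pool.Agent.helper81.BS.SpecG

/-! Module M8 of project bs (MP_b34eaa_lc): an important set contains the furthest minimal set. -/

set_option autoImplicit false
set_option linter.dupNamespace false
set_option linter.unusedVariables false
set_option linter.unusedSectionVars false

namespace Pool.Agent.helper81.BS

open Pool.Agent.helper81.PL

theorem M8 (hM1 : M1_stmt) (hM4 : M4_stmt) (hM6 : M6_stmt) : M8_stmt := by
  intro n E Q v P M R hWF hP hM hR hPR
  have h1 := hM1 n E R M
  have h2 : dd n E M ≤ dd n E (R ∩ M) := by
    apply hM6 n E Q v P M hWF hP hM (R ∩ M)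
    · exact Finset.inter_subset_left.trans hR.1.1
    · exact Finset.subset_inter hPR hM.2.1
    · exact Finset.disjoint_of_subset_left Finset.inter_subset_left hR.1.2.1
  have h3 : Feas n E Q v (R ∪ M) := (hM4 n E Q v R hR.1).1 M hM.1
  by_contra hne
  have h4 : R ⊂ R ∪ M := by
    rw [Finset.ssubset_iff_subset_ne]
    refine ⟨Finset.subset_union_left, ?_⟩
    intro h
    apply hne
    rw [h]
    exact Finset.subset_union_right
  have h5 := hR.2 _ h3 h4
  omega

end Pool.Agent.helper81.BS
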