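import Pool.Agent.helper73.BS.Spec

set_option autoImplicit false

namespace Pool.Agent.BS

open Matrix Module Pool.Agent.UG Pool.Agent.H48SL Pool.Agent.SHL

theorem JS_sum (hXA : XA_stmt) {Λ : Subgroup KBˣ} {κ : Type} (s : Finset κ)
    (ψ : κ → ℕ → ℚ → KB) (h : ∀ i ∈ s, CF Λ (ψ i)) : CF Λ (fun k x => ∑ i ∈ s, ψ i k x) := by
  classical
  induction s using Finset.induction_on with
  | empty => simp only [Finset.sum_empty]; exact (hXA Λ).1 0
  | insert a s ha ih =>
    simp only [Finset.sum_insert ha]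
    exact (hXA Λ).2.2.2.1 _ _ (h a (Finset.mem_insert_self a s))
      (ih fun k hk => h k (Finset.mem_insert_of_mem hk))

theorem JS_eval (hXA : XA_stmt) {Λ : Subgroup KBˣ} {n : ℕ} (M : ℕ → ℚ → MQ n)
    (h : ∀ i j, CF Λ (fun k x => algebraMap ℚ KB (M k x i j)))
    (F : MvPolynomial (Fin n × Fin n) ℚ) :
    CF Λ (fun k x => algebraMap ℚ KB
      (MvPolynomial.eval (fun a : Fin n × Fin n => M k x a.1 a.2) F)) := by
  induction F using MvPolynomial.induction_on with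
  | C a => simp only [MvPolynomial.eval_C]; exact (hXA Λ).1 _
  | add p q hp hq => simp only [map_add]; exact (hXA Λ).2.2.2.1 _ _ hp hq
  | mul_X p i hp =>
    simp only [map_mul, MvPolynomial.eval_X]
    exact (hXA Λ).2.2.2.2 _ _ hp (h i.1 i.2)

theorem JS_mul (hXA : XA_stmt) {Λ : Subgroup KBˣ} {n : ℕ} (M M' : ℕ → ℚ → MQ n)
    (h : ∀ i j, CF Λ (fun k x => algebraMap ℚ KB (M k x i j)))
    (h' : ∀ i j, CF Λ (fun k x => algebraMap ℚ KB (M' k x i j))) :
    ∀ i j, CF Λ (fun k x => algebraMap ℚ KB ((M k x * M' k x) i j)) := by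
  intro i j
  simp only [Matrix.mul_apply, map_sum, map_mul]
  exact JS_sum hXA _ _ fun l _ => (hXA Λ).2.2.2.2 _ _ (h i l) (h' l j)

/-- the entries of `exp (x N)` -/
theorem JS_exp (hXA : XA_stmt) (Λ : Subgroup KBˣ) {n : ℕ} {N : MQ n} (hN : IsNilpotent N)
    (c : ℚ) : ∀ i j, CF Λ (fun _ x => algebraMap ℚ KB (IsNilpotent.exp ((c * x) • N) i j)) := by
  intro i j
  obtain ⟨m, hm⟩ := hN
  have h1 : ∀ x : ℚ, algebraMap ℚ KB (IsNilpotent.exp ((c * x) • N) i j)
      = ∑ l ∈ Finset.range m, algebraMap ℚ KB ((l.factorial : ℚ)⁻¹ * c ^ l * (N ^ l) i j)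
        * (algebraMap ℚ KB x) ^ l := by
    intro x
    have h2 : ((c * x) • N) ^ m = 0 := by rw [smul_pow, hm, smul_zero]
    rw [IsNilpotent.exp_eq_sum h2, Matrix.sum_apply, map_sum]
    apply Finset.sum_congr rfl
    intro l _
    rw [smul_pow, Matrix.smul_apply, Matrix.smul_apply, smul_eq_mul, smul_eq_mul, ← map_pow,
      ← map_mul]
    congr 1
    rw [mul_pow]
    ring
  simp only [h1]
  have h3 : ∀ l : ℕ, CF Λ (fun _ x => (algebraMap ℚ KB x) ^ l) := by
    intro l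
    induction l with
    | zero => simp only [pow_zero]; exact (hXA Λ).1 1
    | succ l ih => simp only [pow_succ]; exact (hXA Λ).2.2.2.2 _ _ ih (hXA Λ).2.1
  exact JS_sum hXA _ _ fun l _ => (hXA Λ).2.2.2.2 _ _ ((hXA Λ).1 _) (h3 l)

/-- eigenvalues of an invertible matrix are units -/
theorem JS_eig {n : ℕ} {s : MQ n} (hs : IsUnit s.det) (l : KB) (w : Fin n → KB) (hw : w ≠ 0)
    (h : s.map (algebraMap ℚ KB) *ᵥ w = l • w) : ∃ z ∈ (⊤ : Subgroup KBˣ), (z : KB) = l := by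
  have hl : l ≠ 0 := by
    rintro rfl
    rw [zero_smul] at h
    have h1 : (s.map (algebraMap ℚ KB)).det = 0 :=
      Matrix.exists_mulVec_eq_zero_iff.1 ⟨w, hw, h⟩
    have h2 : (s.map (algebraMap ℚ KB)).det = algebraMap ℚ KB s.det :=
      ((algebraMap ℚ KB).map_det s).symm
    rw [h2, map_eq_zero] at h1
    exact hs.ne_zero h1
  exact ⟨Units.mk0 l hl, trivial, rfl⟩

/-- a function in `CF` which vanishes on the diagonal is zero -/
theorem JS_zero (hXI : XI_stmt) {Λ : Subgroup KBˣ} {ψ : ℕ → ℚ → KB} (h : CF Λ ψ)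
    (h0 : ∀ k : ℕ, ψ k (k : ℚ) = 0) : ∀ k x, ψ k x = 0 := by
  obtain ⟨t, p, -, hp⟩ := h
  have h1 := hXI KB t p (fun k => by
    have h2 := hp k (k : ℚ)
    rw [h0 k, map_natCast] at h2
    exact h2.symm)
  intro k x
  rw [hp k x]
  apply Finset.sum_eq_zero
  intro z hz
  rw [h1 z hz, Polynomial.eval_zero, zero_mul]

theorem JS (hXI : XI_stmt) (hXA : XA_stmt) (hXZ : XZ_stmt) : JS_stmt := by
  intro n E s s' N hE hs hss hss' hN hs' hk
  have hdet' : IsUnit s'.det := by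
    rw [hs', Matrix.det_mul]
    refine IsUnit.mul ?_ hs
    have h1 : IsNilpotent.exp N * IsNilpotent.exp (-N) = 1 := IsNilpotent.exp_mul_exp_neg_self hN
    have h2 := congrArg Matrix.det h1
    rw [Matrix.det_mul, Matrix.det_one] at h2
    exact IsUnit.of_mul_eq_one _ h2
  have key : ∀ x : ℚ, IsNilpotent.exp ((-1 * x) • N) ∈ E := by
    intro x
    apply hE
    intro F hF
    set M : ℕ → ℚ → MQ n := fun k x => IsNilpotent.exp ((-1 * x) • N) * s' ^ k * s⁻¹ ^ k with hM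
    have h1 : ∀ i j, CF ⊤ (fun k x => algebraMap ℚ KB (M k x i j)) := by
      refine JS_mul hXA (fun k x => IsNilpotent.exp ((-1 * x) • N) * s' ^ k) (fun k _ => s⁻¹ ^ k)
        ?_ (fun i j => (hXZ n s ⊤ hs hss (JS_eig hs) i j).2)
      exact JS_mul hXA (fun _ x => IsNilpotent.exp ((-1 * x) • N)) (fun k _ => s' ^ k)
        (JS_exp hXA ⊤ hN (-1)) (fun i j => (hXZ n s' ⊤ hdet' hss' (JS_eig hdet') i j).1)
    have h2 := JS_zero hXI (JS_eval hXA M h1 F) (fun k => by
      rw [map_eq_zero]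
      apply hF
      have h3 := hk k
      rw [neg_eq_neg_one_mul] at h3
      exact h3) 0 x
    rw [map_eq_zero] at h2
    have h4 : M 0 x = IsNilpotent.exp ((-1 * x) • N) := by
      rw [hM]
      simp only [pow_zero, mul_one]
    rw [h4] at h2
    exact h2
  intro x
  have h5 := key (-x)
  rwa [neg_one_mul, neg_neg] at h5

end Pool.Agent.BS
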