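import Pool.Agent.helper73.BS.Spec

set_option autoImplicit false

namespace Pool.Agent.BS

open Matrix Module Pool.Agent.UG Pool.Agent.H48SL Pool.Agent.SHL

/-- elements of the closure preserve subspaces preserved by the set -/
theorem RC_stab {n : ℕ} {S : Set (MQ n)} (V : Submodule ℚ (VQ n)) (w : VQ n)
    (h : ∀ s ∈ S, s *ᵥ w ∈ V) : ∀ x ∈ ZQ S, x *ᵥ w ∈ V := by
  intro x hx
  by_contra hne
  obtain ⟨ℓ, hℓ1, hℓ2⟩ := Submodule.exists_le_ker_of_notMem hne
  have h0 : ∀ v : VQ n, ℓ v = ∑ a, v a * ℓ (Pi.single a 1) := by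
    intro v
    conv_lhs => rw [pi_eq_sum_univ' v]
    rw [map_sum]
    apply Finset.sum_congr rfl
    intro a _
    rw [map_smul, smul_eq_mul]
  have key : ∀ y : MQ n, MvPolynomial.eval (fun a : Fin n × Fin n => y a.1 a.2)
      (∑ a, ∑ b, MvPolynomial.C (w b * ℓ (Pi.single a 1)) * MvPolynomial.X (a, b))
      = ℓ (y *ᵥ w) := by
    intro y
    rw [h0, map_sum]
    apply Finset.sum_congr rfl
    intro a _
    rw [map_sum]
    show _ = (∑ b, y a b * w b) * _
    rw [Finset.sum_mul]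
    apply Finset.sum_congr rfl
    intro b _
    rw [map_mul, MvPolynomial.eval_C, MvPolynomial.eval_X]
    ring
  apply hℓ1
  rw [← key]
  apply hx
  intro s hs
  rw [key]
  exact hℓ2 (h s hs)

theorem RC_conj_exp {n : ℕ} {g g' X : MQ n} (hg : g' * g = 1) (hX : IsNilpotent X) (t : ℚ) :
    IsNilpotent.exp (t • (g * X * g')) = g * IsNilpotent.exp (t • X) * g' := by
  obtain ⟨m, hm⟩ := hX
  have hg' : g * g' = 1 := mul_eq_one_comm.1 hg
  have h1 : ∀ l : ℕ, (g * X * g') ^ l = g * X ^ l * g' := by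
    intro l
    induction l with
    | zero => rw [pow_zero, pow_zero, mul_one, hg']
    | succ l ih =>
      rw [pow_succ, ih, pow_succ]
      calc g * X ^ l * g' * (g * X * g') = g * X ^ l * (g' * g) * X * g' := by
            simp only [mul_assoc]
        _ = g * (X ^ l * X) * g' := by rw [hg]; simp only [mul_assoc, one_mul]
  have h2 : (t • X) ^ m = 0 := by rw [smul_pow, hm, smul_zero]
  have h3 : (t • (g * X * g')) ^ m = 0 := by
    rw [smul_pow, h1, hm, mul_zero, zero_mul, smul_zero]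
  rw [IsNilpotent.exp_eq_sum h2, IsNilpotent.exp_eq_sum h3, Finset.mul_sum, Finset.sum_mul]
  apply Finset.sum_congr rfl
  intro l _
  rw [smul_pow, smul_pow, h1]
  simp only [mul_smul_comm, smul_mul_assoc]

theorem RC (hZG : ZG_stmt) (hZC : ZC_stmt) (hZE : ZE_stmt) (hRL : RL_stmt) (hRS : RS_stmt)
    (hEI : EI_stmt) (hEXJ : UG.EXJ_stmt) : RC_stmt := by
  intro n P 𝔲 k W h X hX g hg
  obtain ⟨hdet, hginv⟩ := (hZG n P).2 g hg
  have hu : IsUnit g.det := by rw [hdet]; exact isUnit_one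
  have hgg : g⁻¹ * g = 1 := Matrix.nonsing_inv_mul g hu
  have hXn : IsNilpotent X := fil_one_nil h.bot h.top ((mem_fil_one h.bot).2 hX.1)
  have hstab : ∀ y ∈ ZQ (mz P), ∀ i, ∀ w ∈ W i, y *ᵥ w ∈ W i := by
    intro y hy i w hw
    refine RC_stab (W i) w ?_ y hy
    rintro _ ⟨q, hq, rfl⟩
    exact h.stab q hq i w hw
  have hX' : Rad P W (g * X * g⁻¹) := by
    constructor
    · intro i w hw
      rw [← mulVec_mulVec, ← mulVec_mulVec]
      exact hstab g hg i _ (hX.1 i _ (hstab g⁻¹ hginv (i + 1) w hw))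
    · intro t
      rw [RC_conj_exp hgg hXn]
      exact (hZG n P).1 _ ((hZG n P).1 _ hg _ (hX.2 t)) _ hginv
  have hXm : Rad P W (-X) := by
    constructor
    · intro i w hw
      rw [Matrix.neg_mulVec]
      exact (W i).neg_mem (hX.1 i w hw)
    · intro t
      rw [smul_neg, ← neg_smul]
      exact hX.2 (-t)
  obtain ⟨Z, hZ, hZe, hZu⟩ := hRS n P 𝔲 k W h _ _ hX' hXm
  have hE : ZQ (Ex 𝔲) ⊆ Ex 𝔲 := hZE n 𝔲 k W h.bot h.top h.down
  have hc := hZC n P (Ex 𝔲) hE (fun a ha b hb => h.com a ha b hb) g hg (IsNilpotent.exp X)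
    (by have h1 := hX.2 1; rwa [one_smul] at h1)
  have hinv : (IsNilpotent.exp X)⁻¹ = IsNilpotent.exp (-X) :=
    Matrix.inv_eq_right_inv (IsNilpotent.exp_mul_exp_neg_self hXn)
  have hex : IsNilpotent.exp (g * X * g⁻¹) = g * IsNilpotent.exp X * g⁻¹ := by
    have h1 := RC_conj_exp hgg hXn 1
    rwa [one_smul, one_smul] at h1
  rw [hinv, ← hex, hZe] at hc
  obtain ⟨U, hU, hUe⟩ := hc
  have hZU : Z = U := hEI n Z U (fil_one_nil h.bot h.top ((mem_fil_one h.bot).2 hZ.1))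
    (fil_one_nil h.bot h.top ((mem_fil_one h.bot).2 (h.down U hU))) hUe
  have hZm : Z ∈ 𝔲 := by rw [hZU]; exact hU
  have h2 := 𝔲.sub_mem hZm hZu
  have h3 : Z - (Z - g * X * g⁻¹ - -X) = g * X * g⁻¹ - X := by abel
  rwa [h3] at h2

end Pool.Agent.BS
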