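import Pool.Agent.helper73.BS.Spec

set_option autoImplicit false

namespace Pool.Agent.BS

open Matrix Module Pool.Agent.UG Pool.Agent.H48SL Pool.Agent.SHL

/-- a polynomial curve with all parameters `i * j` in a set is in the closure of the set -/
theorem RU_curve {n : ℕ} {f : ℚ → MQ n} (hf : PC f) (S : Set (MQ n)) (j : ℕ) (hj : 1 ≤ j)
    (h : ∀ i : ℕ, f ((i : ℚ) * (j : ℚ)) ∈ S) (t : ℚ) : f t ∈ ZQ S := by
  intro F hF
  choose p hp using hf
  have key : ∀ t, MvPolynomial.eval (fun a : Fin n × Fin n => f t a.1 a.2) F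
      = (MvPolynomial.eval₂ Polynomial.C (fun a : Fin n × Fin n => p a.1 a.2) F).eval t := by
    intro t
    rw [MvPolynomial.polynomial_eval_eval₂]
    have h1 : (Polynomial.evalRingHom t).comp (Polynomial.C : ℚ →+* Polynomial ℚ) = RingHom.id ℚ := by
      apply RingHom.ext
      intro x
      exact Polynomial.eval_C
    have h2 : (fun a : Fin n × Fin n => f t a.1 a.2)
        = (fun a : Fin n × Fin n => Polynomial.eval t (p a.1 a.2)) := by
      funext a
      exact hp a.1 a.2 t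
    rw [h1, h2]
    rfl
  have hP0 : MvPolynomial.eval₂ Polynomial.C (fun a : Fin n × Fin n => p a.1 a.2) F = 0 := by
    apply Polynomial.eq_zero_of_infinite_isRoot
    apply Set.Infinite.mono (s := Set.range (fun i : ℕ => (i : ℚ) * (j : ℚ)))
    · rintro _ ⟨i, rfl⟩
      show Polynomial.eval _ _ = 0
      rw [← key]
      exact hF _ (h i)
    · apply Set.infinite_range_of_injective
      intro a b hab
      have hj0 : (j : ℚ) ≠ 0 := by
        have : 0 < j := hj
        exact_mod_cast this.ne'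
      have := mul_right_cancel₀ hj0 hab
      exact_mod_cast this
  rw [key, hP0, Polynomial.eval_zero]

theorem RU_pow {n : ℕ} (hZG : ZG_stmt) (P : Subgroup (SLZ n)) (y : MQ n) (hy : y ∈ ZQ (mz P))
    (j : ℕ) : y ^ j ∈ ZQ (mz P) := by
  induction j with
  | zero =>
    rw [pow_zero]
    exact subset_ZQ _ ⟨1, P.one_mem, qg_one.symm⟩
  | succ j ih =>
    rw [pow_succ]
    exact (hZG n P).1 _ ih _ hy

theorem RU (hJZ : JZ_stmt) (hEXJ : UG.EXJ_stmt) (hZG : ZG_stmt) : RU_stmt := by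
  intro n P 𝔲 k W h
  refine ⟨fun X hX => ⟨h.down X hX, fun t => ?_⟩, fun y hy s N hsN => ?_⟩
  · obtain ⟨j, hj, g, hg, hgX⟩ := h.lat X hX
    have hnil : IsNilpotent X := fil_one_nil h.bot h.top ((mem_fil_one h.bot).2 (h.down X hX))
    have hnil' : IsNilpotent ((j : ℚ) • X) := by
      obtain ⟨m, hm⟩ := hnil
      exact ⟨m, by rw [smul_pow, hm, smul_zero]⟩
    have hPC : PC (fun t : ℚ => IsNilpotent.exp (t • X)) := (hEXJ n X hnil).2.2.2.2.2.2.1
    refine RU_curve hPC (mz P) j hj (fun i => ?_) t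
    refine ⟨g ^ i, P.pow_mem hg i, ?_⟩
    rw [qg_pow, hgX, (hEXJ n _ hnil').1 i, smul_smul]
  · obtain ⟨hdet, -⟩ := (hZG n P).2 y hy
    have hu : IsUnit y.det := by rw [hdet]; exact isUnit_one
    have hsub : ZQ {z | ∃ j : ℕ, z = y ^ j} ⊆ ZQ (mz P) := by
      apply ZQ_min
      rintro _ ⟨j, rfl⟩
      exact RU_pow hZG P y hy j
    refine ⟨⟨h.ss y hy s N hsN, fun x => ?_⟩, ?_⟩
    · have h1 := hsub (hJZ n y s N hu hsN 0 x)
      rwa [pow_zero, one_mul] at h1
    · have h1 := hsub (hJZ n y s N hu hsN 1 0)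
      rw [pow_one, zero_smul, IsNilpotent.exp_zero, mul_one] at h1
      exact h1

end Pool.Agent.BS
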