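import Pool.Agent.helper73.BS.Spec

set_option autoImplicit false

namespace Pool.Agent.BS

open Matrix Module Pool.Agent.UG Pool.Agent.H48SL Pool.Agent.SHL

/-- a polynomial map carries closures into closures -/
theorem ZG_map {n : ℕ} (φ : MQ n → MQ n) (q : Fin n → Fin n → MvPolynomial (Fin n × Fin n) ℚ)
    (hφ : ∀ x i j, φ x i j = MvPolynomial.eval (fun a : Fin n × Fin n => x a.1 a.2) (q i j))
    {S T : Set (MQ n)} (h : ∀ s ∈ S, φ s ∈ ZQ T) : ∀ x ∈ ZQ S, φ x ∈ ZQ T := by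
  intro x hx F hF
  have key : ∀ y : MQ n, MvPolynomial.eval (fun a : Fin n × Fin n => φ y a.1 a.2) F
      = MvPolynomial.eval (fun a : Fin n × Fin n => y a.1 a.2)
        (MvPolynomial.bind₁ (fun a : Fin n × Fin n => q a.1 a.2) F) := by
    intro y
    have h2 : (fun a : Fin n × Fin n => φ y a.1 a.2)
        = (fun a : Fin n × Fin n => MvPolynomial.eval (fun a : Fin n × Fin n => y a.1 a.2)
          (q a.1 a.2)) := by
      funext a
      exact hφ y a.1 a.2
    rw [h2]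
    exact (MvPolynomial.eval₂Hom_bind₁ (RingHom.id ℚ) (fun a : Fin n × Fin n => y a.1 a.2)
      (fun a : Fin n × Fin n => q a.1 a.2) F).symm
  rw [key]
  apply hx
  intro s hs
  rw [← key]
  exact h s hs F hF

theorem ZG_left {n : ℕ} (g : MQ n) {S T : Set (MQ n)} (h : ∀ s ∈ S, g * s ∈ ZQ T) :
    ∀ x ∈ ZQ S, g * x ∈ ZQ T := by
  apply ZG_map (fun x => g * x)
    (fun i j => ∑ l, MvPolynomial.C (g i l) * MvPolynomial.X (l, j)) ?_ h
  intro x i j
  show (g * x) i j = _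
  rw [Matrix.mul_apply, map_sum]
  apply Finset.sum_congr rfl
  intro l _
  rw [map_mul, MvPolynomial.eval_C, MvPolynomial.eval_X]

theorem ZG_right {n : ℕ} (g : MQ n) {S T : Set (MQ n)} (h : ∀ s ∈ S, s * g ∈ ZQ T) :
    ∀ x ∈ ZQ S, x * g ∈ ZQ T := by
  apply ZG_map (fun x => x * g)
    (fun i j => ∑ l, MvPolynomial.X (i, l) * MvPolynomial.C (g l j)) ?_ h
  intro x i j
  show (x * g) i j = _
  rw [Matrix.mul_apply, map_sum]
  apply Finset.sum_congr rfl
  intro l _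
  rw [map_mul, MvPolynomial.eval_C, MvPolynomial.eval_X]

theorem ZG_adj {n : ℕ} {S T : Set (MQ n)} (h : ∀ s ∈ S, adjugate s ∈ ZQ T) :
    ∀ x ∈ ZQ S, adjugate x ∈ ZQ T := by
  apply ZG_map (fun x => adjugate x)
    (fun i j => adjugate (mvPolynomialX (Fin n) (Fin n) ℚ) i j) ?_ h
  intro x i j
  have h1 := RingHom.map_adjugate (MvPolynomial.eval fun p : Fin n × Fin n => x p.1 p.2)
    (mvPolynomialX (Fin n) (Fin n) ℚ)
  rw [mvPolynomialX_mapMatrix_eval] at h1
  show adjugate x i j = _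
  rw [← h1]
  rfl

theorem ZG_det {n : ℕ} {S : Set (MQ n)} (h : ∀ s ∈ S, s.det = 1) :
    ∀ x ∈ ZQ S, x.det = 1 := by
  intro x hx
  have key : ∀ y : MQ n, MvPolynomial.eval (fun a : Fin n × Fin n => y a.1 a.2)
      (det (mvPolynomialX (Fin n) (Fin n) ℚ) - 1) = y.det - 1 := by
    intro y
    rw [map_sub, map_one, RingHom.map_det, mvPolynomialX_mapMatrix_eval]
  have h1 := hx (det (mvPolynomialX (Fin n) (Fin n) ℚ) - 1) (fun s hs => by
    rw [key, h s hs, sub_self])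
  rw [key] at h1
  exact sub_eq_zero.1 h1

theorem ZG_qdet {n : ℕ} (g : SLZ n) : (qg g).det = 1 := by
  unfold qg
  rw [← RingHom.map_det, g.2, map_one]

theorem ZG : ZG_stmt := by
  intro n P
  refine ⟨?_, fun x hx => ?_⟩
  · have h1 : ∀ g ∈ P, ∀ x ∈ ZQ (mz P), qg g * x ∈ ZQ (mz P) := by
      intro g hg
      apply ZG_left
      rintro _ ⟨k, hk, rfl⟩
      exact subset_ZQ _ ⟨g * k, P.mul_mem hg hk, (qg_mul g k).symm⟩
    intro x hx y hy
    revert x
    intro x hx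
    refine ZG_right y ?_ x hx
    rintro _ ⟨g, hg, rfl⟩
    exact h1 g hg y hy
  · have hd : x.det = 1 := by
      refine ZG_det ?_ x hx
      rintro _ ⟨g, _, rfl⟩
      exact ZG_qdet g
    refine ⟨hd, ?_⟩
    have h1 : x⁻¹ = adjugate x := by
      rw [Matrix.inv_def, hd, Ring.inverse_one, one_smul]
    rw [h1]
    refine ZG_adj ?_ x hx
    rintro _ ⟨g, hg, rfl⟩
    refine subset_ZQ _ ⟨g⁻¹, P.inv_mem hg, ?_⟩
    have h2 : (qg g)⁻¹ = adjugate (qg g) := by
      rw [Matrix.inv_def, ZG_qdet, Ring.inverse_one, one_smul]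
    rw [← h2]
    exact Matrix.inv_eq_right_inv (qg_mul_inv g)

end Pool.Agent.BS
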