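import Pool.Agent.helper73.BS.Spec2
import Pool.Agent.helper78.UG.CNJ

set_option autoImplicit false

namespace Pool.Agent.BS

open Matrix Module Pool.Agent.UG Pool.Agent.H48SL Pool.Agent.SHL

theorem CJ_dense {n : ℕ} {H : Subgroup (SLZ n)} (hZ : ZDense H) (g : SLZ n) :
    ZDense (H.comap (MulAut.conj g).toMonoidHom) := by
  have hmem : ∀ h : SLZ n, h ∈ H.comap (MulAut.conj g).toMonoidHom ↔ g * h * g⁻¹ ∈ H :=
    fun h => Iff.rfl
  intro P hP x
  have hF : IsPoly (fun x : SLZ n => MvPolynomial.eval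
      (fun y : Fin n × Fin n => (x : Matrix (Fin n) (Fin n) ℤ) y.1 y.2) P) := ⟨P, fun _ => rfl⟩
  obtain ⟨P', hP'⟩ := ip_mul_right (ip_mul_left hF g⁻¹) g
  have h1 := hZ P' (fun h hh => by
    rw [← hP' h]
    apply hP
    rw [hmem]
    have h2 : g * (g⁻¹ * (h * g)) * g⁻¹ = h := by group
    rw [h2]
    exact hh) (g * x * g⁻¹)
  rw [← hP' (g * x * g⁻¹)] at h1
  have h3 : g⁻¹ * (g * x * g⁻¹ * g) = x := by group
  simp only [h3] at h1
  exact h1

theorem CJ_solv {n : ℕ} {P : Subgroup (SLZ n)} (hP : Group.IsSolvable P) (g : SLZ n) :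
    Group.IsSolvable (P.comap (MulAut.conj g).toMonoidHom) := by
  have hinj : Function.Injective ((MulAut.conj g).toMonoidHom.subgroupComap P) := by
    intro a b hab
    apply Subtype.ext
    have h1 := congrArg (fun y : P => (y : SLZ n)) hab
    exact (MulAut.conj g).injective h1
  exact Group.isSolvable_of_isSolvable_injective hinj

theorem CJ_inf {n : ℕ} (g h : SLZ n) (hinf : ∀ j : ℕ, 0 < j → h ^ j ≠ 1) :
    ∀ j : ℕ, 0 < j → (g⁻¹ * h * g) ^ j ≠ 1 := by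
  intro j hj h1
  apply hinf j hj
  have h2 : h = g * (g⁻¹ * h * g) * g⁻¹ := by group
  rw [h2, conj_pow, h1]
  group

theorem CJ_act {n : ℕ} (g h : SLZ n) (u : VQ n) :
    qg (g⁻¹ * h * g) *ᵥ u = qg g⁻¹ *ᵥ (qg h *ᵥ (qg g *ᵥ u)) := by
  rw [qg_mul, qg_mul, mulVec_mulVec, mulVec_mulVec, mul_assoc]

theorem CJ_back {n : ℕ} (g : SLZ n) (u : VQ n) : qg g⁻¹ *ᵥ (qg g *ᵥ u) = u := by
  rw [mulVec_mulVec, qg_inv_mul, one_mulVec]

theorem CJ : CJ_stmt := by
  intro n hn H P hZ hPH hsolv hstar v hv hred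
  obtain ⟨g, c, hg⟩ := CNJ_vec hn v hv
  have hc : c ≠ 0 := by
    rintro rfl
    rw [zero_smul] at hg
    have h1 := CJ_back g (e0 n)
    rw [hg, mulVec_zero] at h1
    have h2 := congrFun h1 0
    unfold e0 at h2
    rw [Pi.single_eq_same] at h2
    exact zero_ne_one h2
  have hmem : ∀ h ∈ P, g⁻¹ * h * g ∈ P.comap (MulAut.conj g).toMonoidHom := by
    intro h hh
    have h1 : g * (g⁻¹ * h * g) * g⁻¹ = h := by group
    show g * (g⁻¹ * h * g) * g⁻¹ ∈ P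
    rw [h1]
    exact hh
  refine ⟨H.comap (MulAut.conj g).toMonoidHom, P.comap (MulAut.conj g).toMonoidHom, ?_,
    CJ_dense hZ g, Subgroup.comap_mono hPH, CJ_solv hsolv g, ?_, ?_⟩
  · intro hfi
    have h1 : (H.comap (MulAut.conj g).toMonoidHom).index = H.index :=
      Subgroup.index_comap_of_surjective H (MulAut.conj g).surjective
    exact ⟨by rw [← h1]; exact hfi.index_ne_zero⟩
  · intro u
    obtain ⟨h, hh, hinf, hu⟩ := hstar (qg g *ᵥ u)
    refine ⟨g⁻¹ * h * g, hmem h hh, CJ_inf g h hinf, ?_⟩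
    rw [CJ_act, hu, CJ_back]
  · intro u
    obtain ⟨h, hh, hinf, hv', d, hd⟩ := hred (qg g *ᵥ u)
    refine ⟨g⁻¹ * h * g, hmem h hh, CJ_inf g h hinf, ?_, d / c, ?_⟩
    · rw [CJ_act, hg, mulVec_smul, hv', ← hg, CJ_back]
    · have h1 : qg g⁻¹ *ᵥ v = c⁻¹ • e0 n := by
        have h2 : v = c⁻¹ • (c • v) := by rw [smul_smul, inv_mul_cancel₀ hc, one_smul]
        rw [h2, ← hg, mulVec_smul, CJ_back]
      have h3 : qg g⁻¹ *ᵥ (qg h *ᵥ (qg g *ᵥ u) - qg g *ᵥ u) = qg g⁻¹ *ᵥ (d • v) := by rw [hd]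
      rw [mulVec_sub, CJ_back, mulVec_smul, h1, smul_smul] at h3
      rw [CJ_act, h3, div_eq_mul_inv]

end Pool.Agent.BS
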