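import Pool.Agent.helper73.BS.Spec2

set_option autoImplicit false

namespace Pool.Agent.BS

open Matrix Module Pool.Agent.UG Pool.Agent.H48SL Pool.Agent.SHL

theorem QB_solv {n : ℕ} (P : Subgroup (SLZ (n + 1))) (hP : Group.IsSolvable P) :
    Group.IsSolvable (Hb P) := by
  set Q : Subgroup (St n) := P.subgroupOf (St n) with hQ
  have h1 : Group.IsSolvable Q := by
    set f : Q →* P := {
      toFun := fun x => ⟨x.1.1, x.2⟩
      map_one' := rfl
      map_mul' := fun _ _ => rfl } with hf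
    have hinj : Function.Injective f := by
      intro a b hab
      apply Subtype.ext
      apply Subtype.ext
      exact congrArg (fun y : P => (y : SLZ (n + 1))) hab
    exact Group.isSolvable_of_isSolvable_injective hinj
  exact Group.isSolvable_of_surjective ((blHom n).subgroupMap_surjective Q)

theorem QB_tv {n : ℕ} (h : SLZ (n + 1)) (hf : fx h) (hb : dn (qg h) = 1) :
    ∃ τ : Fin (n + 1) → ℤ, τ 0 = 0 ∧ h = tv (Pi.single 0 1) τ := by
  set τ : Fin (n + 1) → ℤ := fun j => if j = 0 then 0 else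
    (h : Matrix (Fin (n + 1)) (Fin (n + 1)) ℤ) 0 j with hτ
  have h0 : τ 0 = 0 := by rw [hτ]; exact if_pos rfl
  refine ⟨τ, h0, ?_⟩
  apply SL_ext
  rw [tv_coe (by rw [dotProduct_single, h0, zero_mul])]
  ext i j
  rw [Matrix.add_apply, vecMulVec_apply]
  refine Fin.cases ?_ (fun i => ?_) i
  · rw [Pi.single_eq_same, one_mul]
    refine Fin.cases ?_ (fun j => ?_) j
    · rw [h0, add_zero, Matrix.one_apply_eq, (fx_iff h).1 hf, if_pos rfl]
    · rw [Matrix.one_apply_ne (Fin.succ_ne_zero j).symm, zero_add, hτ]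
      exact (if_neg (Fin.succ_ne_zero j)).symm
  · rw [Pi.single_eq_of_ne (Fin.succ_ne_zero i), zero_mul, add_zero]
    refine Fin.cases ?_ (fun j => ?_) j
    · rw [(fx_iff h).1 hf, if_neg (Fin.succ_ne_zero i), Matrix.one_apply_ne (Fin.succ_ne_zero i)]
    · have h2 := congrFun (congrFun hb i) j
      rw [dn_apply, qg_apply] at h2
      by_cases hij : i = j
      · subst hij
        rw [Matrix.one_apply_eq] at h2 ⊢
        exact_mod_cast h2
      · rw [Matrix.one_apply_ne hij] at h2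
        rw [Matrix.one_apply_ne (fun h => hij (Fin.succ_injective _ h))]
        exact_mod_cast h2

theorem QB : QB_stmt := by
  intro n P hP hR hT
  refine ⟨QB_solv P hP, fun ū => ?_⟩
  obtain ⟨g, hg, hinf, hfix, c, hc⟩ := hR (Fin.cons 0 ū)
  have hf : fx g := hfix
  refine ⟨bl g hf, mem_Hb.2 ⟨g, hg, hf, rfl⟩, fun j hj h1 => ?_, ?_⟩
  · have h2 : (blHom n) (⟨g, hf⟩ ^ j) = 1 := by
      rw [map_pow]
      exact h1
    have h3 : fx (g ^ j) := ((⟨g, hf⟩ : St n) ^ j).2
    have h4 : dn (qg (g ^ j)) = 1 := by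
      have h5 := congrArg qg h2
      rw [qg_one] at h5
      exact h5
    obtain ⟨τ, h0, hτ⟩ := QB_tv (g ^ j) h3 h4
    have h5 := hT τ h0 (by rw [← hτ]; exact P.pow_mem hg j)
    exact hinf j hj (by rw [hτ, h5])
  · rw [qg_bl]
    ext i
    have h2 := congrFun hc i.succ
    have h3 : (qg g *ᵥ (Fin.cons 0 ū : VQ (n + 1))) i.succ = (dn (qg g) *ᵥ ū) i := by
      show ∑ k, qg g i.succ k * (Fin.cons 0 ū : VQ (n + 1)) k = ∑ k, qg g i.succ k.succ * ū k
      rw [Fin.sum_univ_succ]
      simp only [Fin.cons_zero, mul_zero, zero_add, Fin.cons_succ]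
    have h4 : (qg g *ᵥ (Fin.cons 0 ū : VQ (n + 1)) - (Fin.cons 0 ū : VQ (n + 1))) i.succ
        = (dn (qg g) *ᵥ ū) i - ū i := by
      rw [Pi.sub_apply, h3, Fin.cons_succ]
    rw [h4] at h2
    have h5 : (c • e0 n) i.succ = 0 := by
      unfold e0
      rw [Pi.smul_apply, Pi.single_eq_of_ne (Fin.succ_ne_zero i), smul_zero]
    rw [h5] at h2
    exact sub_eq_zero.1 h2

end Pool.Agent.BS
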