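import Pool.Agent.helper81.BS.SpecG

/-! Module M5 of project bs (MP_b34eaa_lc): the furthest minimal set exists and is unique. -/

set_option autoImplicit false
set_option linter.dupNamespace false
set_option linter.unusedVariables false
set_option linter.unusedSectionVars false

namespace Pool.Agent.helper81.BS

open Pool.Agent.helper81.PL

theorem M5 (hM1 : M1_stmt) (hM3a : M3a_stmt) (hM3b : M3b_stmt) (hM4 : M4_stmt) : M5_stmt := by
  intro n E Q v P hWF hP
  classical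
  let F : Finset (Finset ℕ) := (Finset.range n).powerset.filter (fun M => Feas n E Q v M ∧ P ⊆ M)
  have hF : ∀ M, M ∈ F ↔ Feas n E Q v M ∧ P ⊆ M := by
    intro M
    show M ∈ (Finset.range n).powerset.filter (fun M => Feas n E Q v M ∧ P ⊆ M) ↔ _
    rw [Finset.mem_filter, Finset.mem_powerset]
    constructor
    · exact fun h => h.2
    · exact fun h => ⟨h.1.1, h⟩
  have hPF : P ∈ F := (hF P).2 ⟨hP, Finset.Subset.refl _⟩
  obtain ⟨M0, hM0, hmin⟩ := Finset.exists_min_image F (fun M => dd n E M) ⟨P, hPF⟩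
  let G : Finset (Finset ℕ) := F.filter (fun M => dd n E M = dd n E M0)
  have hM0G : M0 ∈ G := Finset.mem_filter.2 ⟨hM0, rfl⟩
  obtain ⟨M, hMG, hmax⟩ := Finset.exists_max_image G (fun M => M.card) ⟨M0, hM0G⟩
  have hMG' := Finset.mem_filter.1 hMG
  obtain ⟨hMF, hMd⟩ := hMG'
  obtain ⟨hMf, hPM⟩ := (hF M).1 hMF
  have hIs : IsFM n E Q v P M := by
    refine ⟨hMf, hPM, ?_⟩
    intro M' hM' hPM'
    have h1 : dd n E M ≤ dd n E M' := by
      rw [hMd]
      exact hmin M' ((hF M').2 ⟨hM', hPM'⟩)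
    refine ⟨h1, ?_⟩
    intro h2
    have hv : v ∈ M ∩ M' := Finset.mem_inter.2 ⟨hMf.2.2.1, hM'.2.2.1⟩
    obtain ⟨K, hK⟩ := hM3a n E (M ∩ M') v hv
    have hsub : M ∩ M' ⊆ Finset.range n := Finset.inter_subset_left.trans hMf.1
    obtain ⟨_, hKd, hKmax⟩ := hM3b n E (M ∩ M') v K hWF hsub hK
    have hPK : P ⊆ K := hKmax P (Finset.subset_inter hPM hPM') hP.2.2
    have hKf : Feas n E Q v K := by
      refine ⟨hK.1.trans hsub, ?_, hK.2.1⟩
      exact Finset.disjoint_of_subset_left (hK.1.trans Finset.inter_subset_left) hMf.2.1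
    have h3 : dd n E M0 ≤ dd n E K := hmin K ((hF K).2 ⟨hKf, hPK⟩)
    have h4 := hM1 n E M M'
    have hUf := (hM4 n E Q v M hMf).1 M' hM'
    have hUF : M ∪ M' ∈ F := (hF _).2 ⟨hUf, hPM.trans Finset.subset_union_left⟩
    have h5 : dd n E M0 ≤ dd n E (M ∪ M') := hmin _ hUF
    have h6 : dd n E (M ∪ M') = dd n E M0 := by omega
    have h7 : M ∪ M' ∈ G := Finset.mem_filter.2 ⟨hUF, h6⟩
    have h8 : (M ∪ M').card ≤ M.card := hmax _ h7
    have h9 : M = M ∪ M' := Finset.eq_of_subset_of_card_le Finset.subset_union_left h8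
    rw [h9]
    exact Finset.subset_union_right
  refine ⟨M, hIs, ?_⟩
  intro M' hM'
  have a1 := hIs.2.2 M' hM'.1 hM'.2.1
  have a2 := hM'.2.2 M hIs.1 hIs.2.1
  exact Finset.Subset.antisymm (a1.2 a2.1) (a2.2 a1.1)

end Pool.Agent.helper81.BS
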